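import Pool.Agent.R677.SubN.Chr

/-!
# Character values at elements of mixed order and subnormalizers: a counterexample
-/

set_option autoImplicit false

namespace Pool.Agent.Results.MP_3a6623_al.SubnormalizerMixedOrder

/-- The subnormalizer set of `x`: all `g` such that `⟨x⟩` is subnormal in `⟨x, g⟩`. -/
def subSet {G : Type} [Group G] (x : G) : Set G :=
  {g | ((Subgroup.zpowers x).subgroupOf
    (Subgroup.zpowers x ⊔ Subgroup.zpowers g)).IsSubnormal}

/-- The subnormalizer subgroup of `x`: the subgroup generated by the subnormalizer set. -/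
def subGrp {G : Type} [Group G] (x : G) : Subgroup G := Subgroup.closure (subSet x)

/-- `x` lies in its subnormalizer subgroup. -/
theorem self_mem {G : Type} [Group G] (x : G) : x ∈ subGrp x :=
  Pool.Agent.R677.SubN.self_mem x

/-- The irreducible complex characters of `G` that do not vanish at `x`. -/
abbrev IrrNV (G : Type) [Group G] (x : G) : Type :=
  {χ : G → ℂ // (∃ V : FDRep ℂ G, CategoryTheory.Simple V ∧ V.character = χ) ∧ χ x ≠ 0}

/-- The irreducible complex characters of the subnormalizer subgroup of `x` that do not vanish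
at `x`. -/
abbrev IrrSub {G : Type} [Group G] (x : G) : Type := IrrNV (subGrp x) ⟨x, self_mem x⟩

/-- The value at `x` of a character in `IrrNV G x`. -/
def val {G : Type} [Group G] {x : G} (χ : IrrNV G x) : ℂ := χ.1 x

/-- `y` is the `p`-part of `x`: it is a power of `x`, its order is a power of `p`, and the order
of `x * y⁻¹` is prime to `p`. -/
def IsPart {G : Type} [Group G] (p : ℕ) (x y : G) : Prop :=
  y ∈ Subgroup.zpowers x ∧ (∃ k : ℕ, y ^ p ^ k = 1) ∧ ¬ p ∣ orderOf (x * y⁻¹)

/-- The degrees of `χ` and `ψ` are natural numbers with the same `p`-part. -/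
def SameDegPart (p : ℕ) {G H : Type} [Group G] [Group H] (χ : G → ℂ) (ψ : H → ℂ) : Prop :=
  ∃ n m : ℕ, χ 1 = n ∧ ψ 1 = m ∧ padicValNat p n = padicValNat p m

/-- The values at `x` of `χ` and `f χ` agree up to sign, for every `χ`. -/
def SameVal {G : Type} [Group G] {x : G} (f : IrrNV G x → IrrSub x) : Prop :=
  ∀ χ, val (f χ) = val χ ∨ val (f χ) = -val χ

/-- Property (SS) for the prime `p` and the element `y`. -/
def SS (p : ℕ) {G : Type} [Group G] (y : G) : Prop :=
  ∃ f : IrrNV G y → IrrSub y, Function.Bijective f ∧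
    (∀ χ, SameDegPart p χ.1 (f χ).1) ∧ SameVal f

/-- The `p'`-part of `x` centralizes a Sylow `p`-subgroup of `G`. -/
def CentSylow (p : ℕ) {G : Type} [Group G] (x : G) : Prop :=
  ∃ y : G, IsPart p x y ∧ ∃ S : Sylow p G, ∀ s ∈ S, Commute (x * y⁻¹) s

/-- There is a bijection satisfying conditions 1 and 2 of the problem. -/
def GoodBij {G : Type} [Group G] (x : G) : Prop :=
  ∃ f : IrrNV G x → IrrSub x, Function.Bijective f ∧ SameVal f ∧
    ∀ p : ℕ, p.Prime → CentSylow p x → ∀ χ, SameDegPart p χ.1 (f χ).1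

open Pool.Agent.R677.SubN in
/-- There are a finite group `G` and `x ∈ G` such that `(G, x_p)` has property (SS) for every
prime `p` dividing the order of `x`, but some irreducible character `χ` of `G` with `χ x ≠ 0` is
such that no irreducible character of the subnormalizer subgroup takes the value `χ x` or `-χ x`
at `x`; in particular no bijection satisfies conditions 1 and 2 of the problem. -/
theorem result : ∃ (G : Type) (_ : Group G) (_ : Finite G) (x : G),
    (∀ p : ℕ, p.Prime → p ∣ orderOf x → ∀ y : G, IsPart p x y → SS p y) ∧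
    (∃ χ : IrrNV G x, ∀ ψ : IrrSub x, val ψ ≠ val χ ∧ val ψ ≠ -val χ) ∧
    ¬ GoodBij x := by
  have key : ∃ χ : IrrNV W x0, ∀ ψ : IrrSub x0, val ψ ≠ val χ ∧ val ψ ≠ -val χ := by
    refine ⟨⟨_, chi_mem, ?_⟩, ?_⟩
    · rw [chi_val]; norm_num
    · rintro ⟨ψ, ⟨V, hV, rfl⟩, h0⟩
      have h1 := bound_of_eq (subGrp x0) subGrp_x0 V hV ⟨x0, self_mem x0⟩ rfl
      constructor
      · intro h
        apply h1.1
        rw [← chi_val]
        exact h
      · intro h
        apply h1.2
        rw [← chi_val]
        exact h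
  refine ⟨W, inferInstance, inferInstance, x0, ?_, key, ?_⟩
  · intro p hp hpx y hy
    rcases part_cases p hp hpx y hy with ⟨_, rfl⟩ | ⟨_, rfl⟩
    · obtain ⟨f, hf⟩ := SS_of_top p x2 subGrp_x2
      exact ⟨f, f.bijective, fun χ => (hf χ).1, fun χ => (hf χ).2⟩
    · obtain ⟨f, hf⟩ := SS_of_top p x3 subGrp_x3
      exact ⟨f, f.bijective, fun χ => (hf χ).1, fun χ => (hf χ).2⟩
  · rintro ⟨f, _, hf, _⟩
    obtain ⟨χ, hχ⟩ := key
    rcases hf χ with h | h
    · exact (hχ (f χ)).1 h
    · exact (hχ (f χ)).2 h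

end Pool.Agent.Results.MP_3a6623_al.SubnormalizerMixedOrder
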